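import Pool.Agent.P.MP_d1c5d3_co.TG.Sum

/-! The choice of the parameters. -/

set_option autoImplicit false

namespace Pool.Agent.P.MP_d1c5d3_co.TG

open Finset Real PG
open scoped Classical

noncomputable section

variable {d : ℕ}

theorem count_of {e y w : ℝ} (e0 : 0 ≤ e) (e1 : e ≤ 1 / 4) (y0 : 0 < y) (y1 : y ≤ 1 / 2)
    (w1 : 1 ≤ w) (hb : ∀ k M : ℕ, M + k = 2 * d →
      (1 + y) ^ M * (1 + 2 * e * y) * exp (-(e * (y / (1 + 2 * y)) ^ 2 *
        ((M : ℝ) ^ 2 - 2 * M)) + e ^ 2 * (1 + 32 * y) ^ (2 * d)) ≤ w * (1 - e) ^ k)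
    (i : Fin d) (n : ℕ) (S : Finset (Finset (Fin d → ℤ)))
    (hS : ∀ A ∈ S, (Good i A ∧ NoSq A) ∧ A.card = n) : (S.card : ℝ) ≤ ((1 - e) ^ 2 * w / y) ^ n := by
  have b0 : 0 < 1 - e := by linarith
  have b1 : y / (1 - e) ^ 2 ≤ 1 := by rw [div_le_one (by positivity)]; nlinarith
  have := count_le (z := y / (1 - e) ^ 2 / w) (by positivity)
    ((div_le_one (by positivity)).2 (b1.trans w1))
    (fun F => y / (1 - e) ^ 2 * (1 - e) ^ F.card) (fun F => by positivity) (fun s F hF => by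
      refine (mul_le_mul_of_nonneg_left ((sum_le e0 (by linarith) y0.le s F hF).trans
        (hb F.card _ (by simp [card_compl_add_card, mul_comm]))) (by positivity)).trans_eq ?_
      field_simp) i n S hS
  have b2 : y / (1 - e) ^ 2 * (1 - e) ^ ({(i, false)} : Finset (Dir d)).card ≤ 1 :=
    mul_le_one₀ b1 (by positivity) (pow_le_one₀ b0.le (by linarith))
  rw [show (1 - e) ^ 2 * w / y = (y / (1 - e) ^ 2 / w)⁻¹ by field_simp, inv_pow, ← one_div,
    le_div_iff₀ (by positivity)]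
  exact this.trans b2

theorem key_bound {y : ℝ} (y0 : 0 < y) (y1 : y ≤ 1 / 8) (hy : (2 * d : ℕ) * y = 1) (k M : ℕ)
    (h : M + k = 2 * d) :
    (1 + y) ^ M * (1 + 2 * (y - 4 * y ^ 2) * y) * exp (-((y - 4 * y ^ 2) *
      (y / (1 + 2 * y)) ^ 2 * ((M : ℝ) ^ 2 - 2 * M)) +
      (y - 4 * y ^ 2) ^ 2 * (1 + 32 * y) ^ (2 * d)) ≤
      exp (1 - 3 / 2 * y + (14 + exp 32) * y ^ 2) * (1 - (y - 4 * y ^ 2)) ^ k := by
  set N : ℕ := 2 * d
  set e := y - 4 * y ^ 2 with he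
  set p := y / (1 + 2 * y) with hp
  have e0 : 0 ≤ e := by nlinarith
  have e1 : e ≤ y := by nlinarith
  have p0 : 0 ≤ p := by positivity
  have p1 : p ≤ y := div_le_self y0.le (by linarith)
  have p2 : y * (1 - 2 * y) ≤ p := by
    rw [hp, le_div_iff₀ (by positivity)]; nlinarith [pow_pos y0 3]
  have a1 : (1 + y) ^ M * (1 + y) ^ k ≤ exp (1 - y / 2 + y ^ 2) := by
    have w0 : 0 ≤ y - y ^ 2 / 2 + y ^ 3 := by nlinarith [pow_pos y0 3]
    have : 1 + y ≤ exp (y - y ^ 2 / 2 + y ^ 3) := by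
      refine le_trans ?_ (quadratic_le_exp_of_nonneg w0)
      have : y - y ^ 2 / 2 ≤ y - y ^ 2 / 2 + y ^ 3 := by nlinarith [pow_pos y0 3]
      have := pow_le_pow_left₀ (by nlinarith) this 2
      nlinarith [pow_pos y0 3, pow_pos y0 4]
    rw [← pow_add, h]
    refine (pow_le_exp (by linarith) this N).trans_eq (congrArg _ ?_)
    linear_combination (1 - y / 2 + y ^ 2) * hy
  have a2 : 1 + 2 * e * y ≤ exp (2 * y ^ 2) := by nlinarith [add_one_le_exp (2 * y ^ 2)]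
  have a3 : e ^ 2 * (1 + 32 * y) ^ N ≤ exp 32 * y ^ 2 := by
    rw [mul_comm]
    refine mul_le_mul ((pow_le_exp (b := 32 * y) (by linarith)
      (by linarith [add_one_le_exp (32 * y)]) N).trans_eq (congrArg _ (by linear_combination 32 * hy)))
      (pow_le_pow_left₀ e0 e1 2) (by positivity) (by positivity)
  have hM : (M : ℝ) = N - k := by rw [← h]; push_cast; ring
  have k0 : (0 : ℝ) ≤ k := k.cast_nonneg
  have N0 : (0 : ℝ) ≤ N := N.cast_nonneg
  have c0 : 0 ≤ e * p ^ 2 := by positivity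
  have a4 : e * p ^ 2 * N ≤ y ^ 2 :=
    calc e * p ^ 2 * N ≤ y * y ^ 2 * N := by gcongr
      _ = _ := by linear_combination y ^ 2 * hy
  have a5 : y - 11 * y ^ 2 ≤ e * p ^ 2 * (N ^ 2 - 2 * N) := by
    have N8 : (8 : ℝ) ≤ N := by nlinarith
    calc y - 11 * y ^ 2 ≤ y * (1 - 4 * y) * (1 - 2 * y) ^ 2 * (1 - 2 * y) := by
          have : 1 - 11 * y ≤ (1 - 4 * y) * (1 - 2 * y) ^ 2 * (1 - 2 * y) := by
            nlinarith [pow_pos y0 2, pow_pos y0 3, pow_pos y0 4]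
          nlinarith
      _ = e * (y * (1 - 2 * y)) ^ 2 * (N ^ 2 - 2 * N) := by
          rw [he]
          linear_combination (-(y * (1 - 4 * y) * (1 - 2 * y) ^ 2) * (N * y + 1 - 2 * y)) * hy
      _ ≤ _ := by
          have : 0 ≤ y * (1 - 2 * y) := by nlinarith
          have : (0 : ℝ) ≤ N ^ 2 - 2 * N := by nlinarith
          gcongr
  have a6 : -(e * p ^ 2 * ((M : ℝ) ^ 2 - 2 * M)) ≤ -y + 11 * y ^ 2 + k * (2 * y ^ 2) := by
    rw [hM]
    nlinarith [mul_le_mul_of_nonneg_left a4 k0, mul_nonneg c0 k0, mul_nonneg c0 (sq_nonneg (k : ℝ))]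
  have a7 : exp (k * (2 * y ^ 2)) ≤ (1 - e) ^ k * (1 + y) ^ k := by
    rw [exp_nat_mul, ← mul_pow]
    refine pow_le_pow_left₀ (exp_pos _).le ?_ k
    have := abs_exp_sub_one_sub_id_le (x := 2 * y ^ 2)
      (by rw [abs_of_nonneg (by positivity)]; nlinarith)
    have := (abs_le.1 this).2
    nlinarith [pow_pos y0 2, pow_pos y0 3]
  refine le_of_mul_le_mul_right ?_ (pow_pos (show 0 < 1 + y by linarith) k)
  calc _ = (1 + y) ^ M * (1 + y) ^ k * (1 + 2 * e * y) *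
        exp (-(e * p ^ 2 * ((M : ℝ) ^ 2 - 2 * M)) + e ^ 2 * (1 + 32 * y) ^ N) := by ring
    _ ≤ exp (1 - y / 2 + y ^ 2) * exp (2 * y ^ 2) *
        exp (-y + 11 * y ^ 2 + k * (2 * y ^ 2) + exp 32 * y ^ 2) := by gcongr
    _ = exp (1 - 3 / 2 * y + (14 + exp 32) * y ^ 2) * exp (k * (2 * y ^ 2)) := by
        simp only [← exp_add]; congr 1; ring
    _ ≤ _ := by rw [mul_assoc]; gcongr

theorem main_bound : ∃ C : ℝ, ∀ (d : ℕ) (i : Fin d) (n : ℕ) (S : Finset (Finset (Fin d → ℤ))),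
    (∀ A ∈ S, (Good i A ∧ NoSq A) ∧ A.card = n) →
      (S.card : ℝ) ≤ ((2 * d - 7 / 2) * exp 1 + C / d) ^ n := by
  set K : ℝ := 22 + exp 32 with hK
  have K0 : 22 ≤ K := by linarith [exp_pos 32]
  refine ⟨3 * exp 1 * K, fun d i n S hS => ?_⟩
  have d1 : (1 : ℝ) ≤ d := by exact_mod_cast i.pos
  have E0 := exp_pos 1
  set y : ℝ := 1 / (2 * d) with hy
  have y0 : 0 < y := by positivity
  have y2 : (2 * d : ℕ) * y = 1 := by rw [hy]; push_cast; field_simp
  have y3 : 2 * d * y = 1 := by simpa using y2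
  have dd : 3 * exp 1 * K / d = 6 * exp 1 * K * y := by rw [hy]; field_simp; ring
  rw [dd]
  by_cases hd : K * y ≤ 1
  · have y1 : y ≤ 1 / 8 := by nlinarith
    have b0 : 0 ≤ 1 - (y - 4 * y ^ 2) := by nlinarith
    refine (count_of (e := y - 4 * y ^ 2) (by nlinarith) (by nlinarith) y0 (by linarith)
      (one_le_exp (by nlinarith [exp_pos 32])) (key_bound y0 y1 y2) i n S hS).trans
      (pow_le_pow_left₀ (by positivity) ?_ n)
    have a1 := pow_le_exp b0 (one_sub_le_exp_neg _) 2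
    have w1 : |(-(7 / 2) * y + K * y ^ 2)| ≤ 7 / 2 * y := abs_le.2 ⟨by nlinarith, by nlinarith⟩
    have a2 := (abs_le.1 (abs_exp_sub_one_sub_id_le (w1.trans (by linarith)))).2
    have a3 : (-(7 / 2) * y + K * y ^ 2) ^ 2 ≤ (7 / 2 * y) ^ 2 := sq_le_sq' (abs_le.1 w1).1 (abs_le.1 w1).2
    rw [div_le_iff₀ y0]
    calc _ ≤ exp ((2 : ℕ) * -(y - 4 * y ^ 2)) * exp (1 - 3 / 2 * y + (14 + exp 32) * y ^ 2) := by gcongr
      _ = exp 1 * exp (-(7 / 2) * y + K * y ^ 2) := by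
          simp only [← exp_add]; congr 1; rw [hK]; push_cast; ring
      _ ≤ exp 1 * (1 - 7 / 2 * y + 6 * K * y ^ 2) := by gcongr; nlinarith [sq_nonneg y]
      _ = _ := by linear_combination (-exp 1) * y3
  · refine (count_of (e := 0) (w := exp 1) le_rfl (by norm_num) y0 (by nlinarith)
      (one_le_exp zero_le_one) (fun k M h => ?_) i n S hS).trans
      (pow_le_pow_left₀ (by positivity) ?_ n)
    · have := (pow_le_exp (by linarith) (by linarith [add_one_le_exp y]) (2 * d) :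
        (1 + y) ^ (2 * d) ≤ exp (_ * y))
      rw [y2] at this
      simpa using (pow_le_pow_right₀ (by linarith) (by omega)).trans this
    · rw [div_le_iff₀ y0]
      have : exp 1 * y * 1 ≤ exp 1 * y * (K * y) := by gcongr; linarith
      nlinarith [mul_pos E0 y0]

end

end Pool.Agent.P.MP_d1c5d3_co.TG
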