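import Pool.Agent.P.MP_d1c5d3_co.TG.Tree

/-! The sum over the sets of children. -/

set_option autoImplicit false

namespace Pool.Agent.P.MP_d1c5d3_co.TG

open Finset PG
open scoped Classical

noncomputable section

variable {d : ℕ}

theorem card_nf {t s : Dir d} {C : Finset (Dir d)} (hs : ng s ∉ C) :
    (C.filter fun u => t.1 ≠ u.1).card + (if t = s then 1 else 2) ≤ (nf t s C).card := by
  have h1 : ng s ∉ C.filter fun u => t.1 ≠ u.1 := fun h => hs (mem_filter.1 h).1
  have h2 : ng t ∉ C.filter fun u => t.1 ≠ u.1 := fun h => (mem_filter.1 h).2 rfl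
  unfold nf
  split_ifs with h
  · rw [← card_insert_of_notMem h1]
    exact card_le_card (subset_insert _ _)
  · rw [card_insert_of_notMem, card_insert_of_notMem h1]
    rw [mem_insert, not_or]
    refine ⟨fun e => h ?_, h2⟩
    obtain ⟨a, b⟩ := Prod.ext_iff.1 e
    exact Prod.ext a (Bool.not_inj b)

theorem pairs_ge (E : Finset (Dir d)) :
    (E.card : ℝ) ^ 2 - 2 * E.card ≤ ∑ t ∈ E, ∑ u ∈ E, if t.1 ≠ u.1 then (1 : ℝ) else 0 := by
  have a : ∀ t ∈ E, (E.card : ℝ) ≤ (∑ u ∈ E, if t.1 ≠ u.1 then (1 : ℝ) else 0) + 2 := by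
    intro t _
    have b : (∑ u ∈ E, if u ∈ ({t, ng t} : Finset (Dir d)) then (1 : ℝ) else 0) ≤ 2 := by
      rw [sum_boole, filter_mem_eq_inter]
      exact_mod_cast (card_le_card inter_subset_right).trans card_le_two
    refine le_trans ?_ (add_le_add_right b _)
    rw [← sum_add_distrib, card_eq_sum_ones, Nat.cast_sum]
    refine sum_le_sum fun u _ => ?_
    by_cases h : t.1 = u.1
    · have : u ∈ ({t, ng t} : Finset (Dir d)) := by
        obtain ⟨i, x⟩ := t
        obtain ⟨j, y⟩ := u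
        cases h
        cases x <;> cases y <;> simp [ng]
      rw [if_pos this]; split_ifs <;> norm_num
    · rw [if_pos h]; split_ifs <;> norm_num
  have := sum_le_sum a
  rw [sum_add_distrib] at this
  simp only [sum_const, nsmul_eq_mul] at this
  linarith

theorem sum_le {e y : ℝ} (e0 : 0 ≤ e) (e1 : e ≤ 1 / 2) (y0 : 0 ≤ y) (s : Dir d)
    (F : Finset (Dir d)) (hF : ng s ∈ F) :
    ∑ C ∈ Fᶜ.powerset, ∏ t ∈ C, y / (1 - e) ^ 2 * (1 - e) ^ (nf t s C).card ≤
      (1 + y) ^ Fᶜ.card * (1 + 2 * e * y) * Real.exp (-(e * (y / (1 + 2 * y)) ^ 2 *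
        ((Fᶜ.card : ℝ) ^ 2 - 2 * Fᶜ.card)) + e ^ 2 * (1 + 32 * y) ^ (2 * d)) := by
  have b0 : 0 < 1 - e := by linarith
  set E := Fᶜ
  set p := y / (1 + 2 * y) with hp
  let f : Dir d → ℝ := fun t => if t = s then y / (1 - e) else y
  have q1 : y / (1 - e) ≤ y * (1 + 2 * e) := by
    rw [div_le_iff₀ b0]
    nlinarith [mul_nonneg y0 (mul_nonneg e0 (sub_nonneg.2 e1))]
  have q2 : y ≤ y / (1 - e) := by rw [le_div_iff₀ b0]; nlinarith [mul_nonneg y0 e0]
  have f1 : ∀ v, y ≤ f v := fun v => by simp only [f]; split_ifs; exacts [q2, le_rfl]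
  have f2 : ∀ v, f v ≤ 2 * y := fun v => by simp only [f]; split_ifs <;> nlinarith
  have f0 : ∀ v, 0 ≤ f v := fun v => y0.trans (f1 v)
  have p0 : 0 ≤ p := by positivity
  have f3 : ∀ v, (1 + f v) * p ≤ f v := fun v => by
    rw [hp, ← mul_div_assoc, div_le_iff₀ (by positivity)]
    nlinarith [f1 v, mul_nonneg y0 (f0 v)]
  set P := ∏ v ∈ E, (1 + f v) with hP
  have P1 : 1 ≤ P := one_le_prod fun v _ => by linarith [f0 v]
  have P2 : P ≤ (1 + y) ^ E.card * (1 + 2 * e * y) := by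
    have g0 : 0 ≤ 2 * e * y := by positivity
    have : ∏ v ∈ E, (if v = s then 1 + 2 * e * y else 1) ≤ 1 + 2 * e * y := by
      rw [prod_ite_eq']; split_ifs <;> linarith
    refine le_trans ?_ (mul_le_mul_of_nonneg_left this (by positivity))
    rw [← prod_const, ← prod_mul_distrib]
    refine prod_le_prod (fun v _ => by linarith [f0 v]) fun v _ => ?_
    simp only [f]
    split_ifs
    · nlinarith [mul_nonneg g0 y0]
    · simp
  have a1 : ∀ C ∈ E.powerset, ∏ t ∈ C, y / (1 - e) ^ 2 * (1 - e) ^ (nf t s C).card ≤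
      ∏ t ∈ C, f t - e * (∑ t ∈ E, ∑ u ∈ E, (if t.1 ≠ u.1 then 1 else 0) *
        ((∏ t ∈ C, f t) * if t ∈ C ∧ u ∈ C then 1 else 0)) + e ^ 2 * ∏ t ∈ C, 16 * f t := by
    intro C hC
    have hC' := mem_powerset.1 hC
    have hs : ng s ∉ C := fun h => mem_compl.1 (hC' h) hF
    set X := ∑ t ∈ C, (C.filter fun u => t.1 ≠ u.1).card with hX
    have x1 : ∏ t ∈ C, y / (1 - e) ^ 2 * (1 - e) ^ (nf t s C).card ≤
        (∏ t ∈ C, f t) * (1 - e) ^ X := by
      rw [hX, ← prod_pow_eq_pow_sum, ← prod_mul_distrib]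
      refine prod_le_prod (fun t _ => by positivity) fun t _ => (mul_le_mul_of_nonneg_left
        (pow_le_pow_of_le_one b0.le (by linarith) (card_nf hs)) (by positivity)).trans_eq ?_
      simp only [f]
      split_ifs <;> rw [pow_add] <;> field_simp
    have x2 : (X : ℝ) ^ 2 ≤ 16 ^ C.card := by
      have : X ≤ C.card * C.card := by
        simpa using sum_le_card_nsmul C _ C.card fun t _ => card_filter_le C _
      have k : C.card ≤ 2 ^ C.card := Nat.lt_two_pow_self.le
      have : X ^ 2 ≤ 16 ^ C.card :=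
        calc X ^ 2 ≤ (2 ^ C.card * 2 ^ C.card) ^ 2 :=
              Nat.pow_le_pow_left (this.trans (Nat.mul_le_mul k k)) 2
          _ = _ := by rw [← mul_pow, ← pow_mul, mul_comm C.card, pow_mul]; norm_num
      exact_mod_cast this
    have x3 : (∑ t ∈ E, ∑ u ∈ E, (if t.1 ≠ u.1 then 1 else 0) *
        ((∏ t ∈ C, f t) * if t ∈ C ∧ u ∈ C then 1 else 0)) = (∏ t ∈ C, f t) * X := by
      rw [hX, Nat.cast_sum, mul_sum, ← sum_subset hC' fun t _ ht => by simp [ht]]
      refine sum_congr rfl fun t ht => ?_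
      rw [← sum_subset hC' fun u _ hu => by simp [hu], card_filter, Nat.cast_sum, mul_sum]
      exact sum_congr rfl fun u hu => by simp [ht, hu]
    have x4 := mul_le_mul_of_nonneg_left ((pow_le_quad e0 (by linarith) X).trans
      (add_le_add_right (mul_le_mul_of_nonneg_left x2 (sq_nonneg e)) _))
      (prod_nonneg fun v (_ : v ∈ C) => f0 v)
    rw [x3, prod_mul_distrib (f := fun _ => 16), prod_const]
    linarith
  have a2 : P * p ^ 2 * ((E.card : ℝ) ^ 2 - 2 * E.card) ≤ ∑ C ∈ E.powerset, ∑ t ∈ E,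
      ∑ u ∈ E, (if t.1 ≠ u.1 then 1 else 0) *
        ((∏ t ∈ C, f t) * if t ∈ C ∧ u ∈ C then 1 else 0) := by
    refine (mul_le_mul_of_nonneg_left (pairs_ge E) (by positivity)).trans ?_
    rw [sum_comm (s := E.powerset), mul_sum]
    refine sum_le_sum fun t ht => ?_
    rw [sum_comm, mul_sum]
    refine sum_le_sum fun u hu => ?_
    rw [← mul_sum]
    by_cases h : t.1 ≠ u.1
    · rw [if_pos h, mul_one, one_mul]
      exact pair_ge E f p0 f0 f3 ht hu fun e => h (congrArg _ e)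
    · simp [h]
  have a3 : ∑ C ∈ E.powerset, ∏ t ∈ C, 16 * f t ≤ P * (1 + 32 * y) ^ (2 * d) := by
    rw [← prod_one_add]
    refine le_trans ?_ (le_mul_of_one_le_left (by positivity) P1)
    refine (prod_le_prod (g := fun _ => 1 + 32 * y) (fun v _ => by linarith [f0 v])
      fun v _ => by linarith [f2 v]).trans ?_
    rw [prod_const]
    exact pow_le_pow_right₀ (by linarith) (by simpa [mul_comm] using card_le_univ E)
  refine (sum_le_sum a1).trans ?_
  rw [sum_add_distrib, sum_sub_distrib, ← mul_sum, ← mul_sum, ← prod_one_add]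
  refine le_trans ?_ (mul_le_mul_of_nonneg_right P2 (Real.exp_pos _).le)
  refine le_trans ?_ (mul_le_mul_of_nonneg_left (Real.add_one_le_exp _) (by linarith))
  nlinarith [mul_le_mul_of_nonneg_left a2 e0, mul_le_mul_of_nonneg_left a3 (sq_nonneg e)]

end

end Pool.Agent.P.MP_d1c5d3_co.TG
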