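import Pool.Agent.P.MP_d1c5d3_co.PG.Num

/-! Induced trees as trees of directions with forbidden sets. -/

set_option autoImplicit false

namespace Pool.Agent.P.MP_d1c5d3_co.TG

open Finset Relation PG
open scoped Classical

noncomputable section

variable {d : ℕ}

/-- the forbidden set of the child in direction `t` -/
def nf (t s : Dir d) (C : Finset (Dir d)) : Finset (Dir d) :=
  insert (ng t) (insert (ng s) (C.filter fun u => t.1 ≠ u.1))

/-- the rules of an induced tree -/
def valid : ∀ h, Tr d h → Dir d → Finset (Dir d) → Prop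
  | 0, _, _, _ => True
  | h + 1, τ, s, F => ∀ t σ, τ t = some σ →
      t ∉ F ∧ valid h σ t (nf t s (univ.filter fun u => (τ u).isSome))

theorem weight_le {z : ℝ} (hz : 0 ≤ z) (H : Finset (Dir d) → ℝ) (hH : ∀ F, 0 ≤ H F)
    (hs : ∀ s F, ng s ∈ F → z * ∑ C ∈ Fᶜ.powerset, ∏ t ∈ C, H (nf t s C) ≤ H F) :
    ∀ (h : ℕ) (s : Dir d) (F : Finset (Dir d)), ng s ∈ F →
      ∑ τ : Tr d h, (if valid h τ s F then z ^ size h τ else 0) ≤ H F := by
  intro h
  induction h with
  | zero =>
    intro s F hF
    refine le_trans ?_ (hs s F hF)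
    have : (1 : ℝ) ≤ ∑ C ∈ Fᶜ.powerset, ∏ t ∈ C, H (nf t s C) := by
      simpa using single_le_sum (f := fun C => ∏ t ∈ C, H (nf t s C))
        (fun C _ => prod_nonneg fun t _ => hH _) (empty_mem_powerset Fᶜ)
    have e : ∑ τ : Tr d 0, (if valid 0 τ s F then z ^ size 0 τ else 0) = z := by
      change ∑ τ : PUnit, _ = z
      simp [valid, size]
    rw [e]
    exact le_mul_of_one_le_right hz this
  | succ h ih =>
    intro s F hF
    refine le_trans ?_ (hs s F hF)
    let w : Finset (Dir d) → Dir d → Option (Tr d h) → ℝ := fun C t o =>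
      o.elim (if t ∈ C then 0 else 1) fun σ =>
        if t ∈ C then (if valid h σ t (nf t s C) then z ^ size h σ else 0) else 0
    have w0 : ∀ C t o, 0 ≤ w C t o := by
      intro C t o
      cases o <;> simp only [w, Option.elim] <;> split_ifs <;> positivity
    have a1 : ∀ τ : Dir d → Option (Tr d h),
        (if valid (h + 1) τ s F then z ^ size (h + 1) τ else 0) ≤
          z * ∑ C ∈ Fᶜ.powerset, ∏ t, w C t (τ t) := by
      intro τ
      have p0 : ∀ C ∈ Fᶜ.powerset, 0 ≤ ∏ t, w C t (τ t) :=
        fun C _ => prod_nonneg fun t _ => w0 _ _ _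
      split_ifs with hv
      · have m : (univ.filter fun u => (τ u).isSome) ∈ Fᶜ.powerset := by
          refine mem_powerset.2 fun u hu => mem_compl.2 ?_
          obtain ⟨σ, e⟩ := Option.isSome_iff_exists.1 (mem_filter.1 hu).2
          exact (hv u σ e).1
        refine le_trans (le_of_eq ?_) (mul_le_mul_of_nonneg_left (single_le_sum p0 m) hz)
        change z ^ (1 + ∑ t, (τ t).elim 0 (size h)) = _
        rw [pow_add, pow_one, ← prod_pow_eq_pow_sum]
        refine congrArg _ (prod_congr rfl fun t _ => ?_)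
        cases e : τ t with
        | none => simp [w, e]
        | some σ => simp [w, e, (hv t σ e).2]
      · exact mul_nonneg hz (sum_nonneg p0)
    change ∑ τ : Dir d → Option (Tr d h),
      (if valid (h + 1) τ s F then z ^ size (h + 1) τ else 0) ≤ _
    refine (sum_le_sum fun τ _ => a1 τ).trans ?_
    rw [← mul_sum, sum_comm]
    refine mul_le_mul_of_nonneg_left (sum_le_sum fun C _ => ?_) hz
    have a2 : ∑ τ : Dir d → Option (Tr d h), ∏ t, w C t (τ t) = ∏ t, ∑ o, w C t o := by
      rw [prod_univ_sum, Fintype.piFinset_univ]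
    rw [a2, ← prod_filter_mul_prod_filter_not univ (· ∈ C), filter_mem_eq_inter, univ_inter,
      prod_eq_one (s := univ.filter (· ∉ C)), mul_one]
    · refine prod_le_prod (fun t _ => sum_nonneg fun o _ => w0 _ _ _) fun t ht => ?_
      rw [Fintype.sum_option]
      simpa [w, ht] using ih t (nf t s C) (mem_insert_self _ _)
    · intro t ht
      rw [Fintype.sum_option]
      simp [w, (mem_filter.1 ht).2]

/-- no unit square -/
def NoSq (A : Finset (Fin d → ℤ)) : Prop :=
  ∀ b, ∀ t u : Dir d, t.1 ≠ u.1 → b ∈ A → b + vec t ∈ A → b + vec u ∈ A → b + vec t + vec u ∉ A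

theorem valid_build {i : Fin d} {A : Finset (Fin d → ℤ)} {L : Lev i A} (g : Good i A)
    (hq : NoSq A) (h : ℕ) : ∀ b ∈ A, ∀ F, (∀ t, L.child b t → t ∉ F) →
    valid h (L.build h b) (L.s b) F := by
  induction h with
  | zero => exact fun _ _ _ _ => trivial
  | succ h ih =>
    intro b hb F hF t σ e
    obtain ⟨c, rfl⟩ := Lev.build_some e
    refine ⟨hF t c, ?_⟩
    have key := ih _ c.1 (nf t (L.s b) (univ.filter fun u => (L.build (h + 1) b u).isSome))
    rw [c.2.2] at key
    refine key fun u cu hu => ?_
    have e1 := c.up.lev.2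
    have e2 := cu.up.lev.2
    rcases mem_insert.1 hu with rfl | hu
    · rw [vec_ng, add_neg_cancel_right] at e2; omega
    rcases mem_insert.1 hu with rfl | hu
    · by_cases h0 : b = 0
      · subst h0
        have h1 := g.half _ cu.1
        refine cu.2.1 ?_
        obtain ⟨j, x⟩ := t
        rw [L.s0] at h1 ⊢
        by_cases hj : i = j
        · subst hj
          cases x
          · simp [vec, ng] at h1
          · rw [vec_ng]; simp
        · simp [vec, ng, hj] at h1
      · have p := L.par b hb h0
        have e3 : b + vec t + vec (ng (L.s b)) = b - vec (L.s b) + vec t := by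
          rw [vec_ng]; abel
        have := L.lip _ p.1 t (e3 ▸ cu.1)
        rw [e3] at e2
        omega
    · obtain ⟨hu, lt⟩ := mem_filter.1 hu
      obtain ⟨σ, e'⟩ := Option.isSome_iff_exists.1 (mem_filter.1 hu).2
      have c' := (Lev.build_some e').1
      exact hq b t u lt hb c.1 c'.1 cu.1

theorem count_le {z : ℝ} (hz : 0 ≤ z) (hz1 : z ≤ 1) (H : Finset (Dir d) → ℝ) (hH : ∀ F, 0 ≤ H F)
    (hs : ∀ s F, ng s ∈ F → z * ∑ C ∈ Fᶜ.powerset, ∏ t ∈ C, H (nf t s C) ≤ H F) (i : Fin d)
    (n : ℕ) (S : Finset (Finset (Fin d → ℤ))) (hS : ∀ A ∈ S, (Good i A ∧ NoSq A) ∧ A.card = n) :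
    S.card * z ^ n ≤ H {(i, false)} := by
  have L : ∀ A : S, Lev i A.1 := fun A => (hS A.1 A.2).1.1.lev.some
  let h : ℕ := univ.sup fun A : S => A.1.sup (L A).l
  let f : S → Tr d h := fun A => (L A).build h 0
  have e : ∀ A : S, (A.1 : Set (Fin d → ℤ)) = pts h (f A) := fun A => by
    refine Set.Subset.antisymm (fun v hv => ?_) fun v hv => ?_
    · have : (L A).l v ≤ h :=
        (le_sup (f := (L A).l) hv).trans (le_sup (f := fun A : S => A.1.sup (L A).l) (mem_univ A))
      simpa using Lev.sub_pts h 0 v (Lev.anc_zero v hv) (by omega)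
    · simpa using Lev.pts_sub h 0 (hS _ A.2).1.1.zero v hv
  have inj : Function.Injective f := fun A B hAB =>
    Subtype.ext (coe_injective (by simp only [e A, e B, hAB]))
  refine le_trans ?_ (weight_le hz H hH hs h (i, true) {(i, false)} (mem_singleton_self _))
  calc (S.card * z ^ n : ℝ) = ∑ _A : S, z ^ n := by simp
    _ ≤ ∑ A : S, (if valid h (f A) (i, true) {(i, false)} then z ^ size h (f A) else 0) := by
      refine sum_le_sum fun A _ => ?_
      have g := (hS _ A.2).1.1
      have v : valid h (f A) (i, true) {(i, false)} := by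
        rw [← (L A).s0]
        refine valid_build g (hS _ A.2).1.2 h 0 g.zero _ fun t c ht => ?_
        have := g.half _ c.1
        rw [mem_singleton.1 ht] at this
        simp [vec] at this
      rw [if_pos v]
      refine pow_le_pow_of_le_one hz hz1 ((Lev.size_le h 0 g.zero).trans ?_)
      rw [← (hS _ A.2).2]
      exact card_filter_le _ _
    _ ≤ _ := by
      rw [← sum_image (g := f) (s := univ)
        (f := fun τ => if valid h τ (i, true) {(i, false)} then z ^ size h τ else 0)
        fun a _ b _ hab => inj hab]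
      exact sum_le_sum_of_subset_of_nonneg (subset_univ _) fun τ _ _ => by positivity

end

end Pool.Agent.P.MP_d1c5d3_co.TG
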